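import Pool.Agent.W_7d29a1_Z.PB
import Pool.Agent.W_7d29a1_Z.PthB
import Pool.Agent.W_7d29a1_Z82.FreshW

/-!
STORM Z (superdiffusivity, MP_7d29a1_pr), leaf FRESH (ML): two paths, one in the environment, one in the sheared environment, which do
not meet are separated: from `fresh_exp` (helper82) and the leaf NS. (helper40)
-/

namespace Pool.Agent.W_7d29a1_Z40

open MeasureTheory ProbabilityTheory Filter Topology Finset
open Pool.Agent.W_7d29a1_F Pool.Agent.W_7d29a1_X Pool.Agent.W_7d29a1_G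
open Pool.Agent.W_7d29a1_SR (In wd)
open Pool.Agent.W_7d29a1_Z
open Pool.Agent.W_7d29a1_Z82 (rsh close Gp fresh_exp)
open scoped ENNReal

variable {μ : Measure ℝ}

/-- The annealed probability of an event of the pair of paths. -/
theorem gp_eq_Gp (η : Env) (N : ℕ) (y : ℤ) (S : Finset ℕ) : gp μ η N y S = Gp μ η N y S := by
  unfold gp Gp
  split_ifs
  · rfl
  · rw [zero_div]

open Classical in
/-- The annealed probability of an event of the pair of paths. -/
theorem P2_path [IsProbabilityMeasure μ] {N : ℕ} {y : ℤ} {v : ℕ → ℤ} (B : Finset ℕ → Finset ℕ → Prop) :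
    P2 μ N y v (fun _ S S' => B S S') ≤ ENNReal.ofReal (∫ η, ∑ S ∈ (range N).powerset, gp μ η N y S *
      ∑ S' ∈ (range N).powerset, gp μ (shr 0 v η) N y S' * (if B S S' then 1 else 0) ∂(law μ)) := by
  have hms : Measurable (shr 0 v) := measurable_pi_iff.2 fun p => measurable_pi_apply _
  have hm : ∀ S S', Measurable fun η : Env => gp μ η N y S * (gp μ (shr 0 v η) N y S' * (if B S S' then (1 : ℝ) else 0)) :=
    fun S S' => (gp_meas36 N y S).mul (((gp_meas36 N y S').comp hms).mul measurable_const)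
  have h0 : ∀ S S' (η : Env), 0 ≤ gp μ η N y S * (gp μ (shr 0 v η) N y S' * (if B S S' then (1 : ℝ) else 0)) := fun S S' η =>
    mul_nonneg (gp_nonneg36 η N y S) (mul_nonneg (gp_nonneg36 _ N y S') (by split_ifs <;> norm_num))
  have e1 : ∀ η : Env, ∑ S ∈ (range N).powerset, gp μ η N y S *
      ∑ S' ∈ (range N).powerset, gp μ (shr 0 v η) N y S' * (if B S S' then (1 : ℝ) else 0) =
      ∑ S ∈ (range N).powerset, ∑ S' ∈ (range N).powerset,
        gp μ η N y S * (gp μ (shr 0 v η) N y S' * (if B S S' then (1 : ℝ) else 0)) := fun η => by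
    refine Finset.sum_congr rfl fun S _ => ?_
    rw [Finset.mul_sum]
  have e2 : ∀ η : Env, ∑ S ∈ (range N).powerset, gp μ η N y S *
      ∑ S' ∈ (range N).powerset, gp μ (shr 0 v η) N y S' * (if B S S' then (1 : ℝ) else 0) ≤ 1 := fun η => by
    refine le_trans (Finset.sum_le_sum fun S _ => ?_) (sum_gp_le_one (μ := μ) η N y)
    have h2 : ∑ S' ∈ (range N).powerset, gp μ (shr 0 v η) N y S' * (if B S S' then (1 : ℝ) else 0) ≤ 1 := by
      refine le_trans (Finset.sum_le_sum fun S' _ => ?_) (sum_gp_le_one (μ := μ) (shr 0 v η) N y)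
      have := gp_nonneg36 (μ := μ) (shr 0 v η) N y S'
      split_ifs
      · rw [mul_one]
      · rw [mul_zero]
        exact this
    have h3 := mul_le_mul_of_nonneg_left h2 (gp_nonneg36 (μ := μ) η N y S)
    rwa [mul_one] at h3
  simp only [e1] at e2 ⊢
  rw [ofReal_integral_eq_lintegral_ofReal]
  · unfold P2
    rw [lintegral_congr fun η => ENNReal.ofReal_sum_of_nonneg fun S _ => Finset.sum_nonneg fun S' _ => h0 S S' η]
    rw [lintegral_finsetSum _ fun S _ => (Finset.measurable_sum _ fun S' _ => hm S S').ennreal_ofReal]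
    refine Finset.sum_le_sum fun S _ => ?_
    rw [lintegral_congr fun η => ENNReal.ofReal_sum_of_nonneg fun S' _ => h0 S S' η]
    rw [lintegral_finsetSum _ fun S' _ => (hm S S').ennreal_ofReal]
    refine Finset.sum_le_sum fun S' _ => ?_
    by_cases hB : B S S'
    · have h1 : {η : Env | B S S'} = Set.univ := by
        ext η
        simp [hB]
      rw [h1, withDensity_apply _ MeasurableSet.univ, Measure.restrict_univ]
      refine le_of_eq (lintegral_congr fun η => ?_)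
      rw [if_pos hB, mul_one]
    · have h1 : {η : Env | B S S'} = ∅ := by
        ext η
        simp [hB]
      rw [h1, measure_empty]
      exact bot_le
  · refine Integrable.of_bound (Finset.measurable_sum _ fun S _ => Finset.measurable_sum _ fun S' _ =>
      hm S S').aestronglyMeasurable 1 (Filter.Eventually.of_forall fun η => ?_)
    rw [Real.norm_eq_abs, abs_of_nonneg (Finset.sum_nonneg fun S _ => Finset.sum_nonneg fun S' _ => h0 S S' η)]
    exact e2 η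
  · exact Filter.Eventually.of_forall fun η => Finset.sum_nonneg fun S _ => Finset.sum_nonneg fun S' _ => h0 S S' η

/-- The paths do not meet in `[i, i + n]` and are never separated by more than `L ^ (- ε) wd' n` (as in the stub `Z/Fresh.lean`). -/
def ClosS (μ : Measure ℝ) (L N : ℕ) (ε : ℝ) (v : ℕ → ℤ) (S S' : Finset ℕ) : Prop :=
  ∃ i n : ℕ, (L : ℝ) ^ ε ≤ n ∧ i + n ≤ N ∧ (∀ k, i ≤ k → k ≤ i + n → pos S k ≠ px v S' k) ∧
    ∀ k, i ≤ k → k ≤ i + n → |((pos S k - px v S' k : ℤ) : ℝ)| ≤ (L : ℝ) ^ (-ε) * wd' μ n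

/-- All the increments are at most `L ^ ε wd' n` (as in the stub `Z/NS.lean`). -/
def NSpS (μ : Measure ℝ) (L N : ℕ) (ε : ℝ) (S : Finset ℕ) : Prop :=
  ∀ i n : ℕ, 1 ≤ n → i + n ≤ N → |2 * ((pos S (i + n) - pos S i : ℤ) : ℝ) - n| ≤ 2 * ((L : ℝ) ^ ε * wd' μ n)

variable [IsProbabilityMeasure μ] {c C : ℝ} {n₀ : ℕ}

theorem fresh_of (h : In μ c C n₀) (hF : HF2 μ)
    (hns : ∀ ε : ℝ, 0 < ε → ∃ δ c' : ℝ, 0 < δ ∧ 0 < c' ∧ ∃ L₀ : ℕ, ∀ L : ℕ, L₀ ≤ L → ∀ N : ℕ, L ≤ 16 * N → N ≤ L →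
      ∀ y : ℤ, 0 ≤ y → y ≤ N → |2 * (y : ℝ) - N| ≤ 2 * ((L : ℝ) ^ δ * wd' μ N) →
      P1 μ N y (fun _ S => ¬ NSpS μ L N ε S) ≤ ENNReal.ofReal (Real.exp (-(L : ℝ) ^ c'))) :
    ∀ ε : ℝ, 0 < ε → ∃ δ c' : ℝ, 0 < δ ∧ 0 < c' ∧ ∃ L₀ : ℕ, ∀ L : ℕ, L₀ ≤ L → ∀ N : ℕ, L ≤ 16 * N →
    N ≤ L → ∀ y : ℤ, 0 ≤ y → y ≤ N → |2 * (y : ℝ) - N| ≤ 2 * ((L : ℝ) ^ δ * wd' μ N) → ∀ v : ℕ → ℤ, sv v 0 N = 0 →
    P2 μ N y v (fun _ S S' => ClosS μ L N ε v S S') ≤ ENNReal.ofReal (Real.exp (-(L : ℝ) ^ c')) := by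
  intro ε hε
  obtain ⟨ε₀, hε₀⟩ : ∃ ε₀ : ℝ, ε₀ = min ε 1 := ⟨_, rfl⟩
  have h00 : 0 < ε₀ := by rw [hε₀]; exact lt_min hε one_pos
  have h01 : ε₀ ≤ 1 := by rw [hε₀]; exact min_le_right _ _
  have h02 : ε₀ ≤ ε := by rw [hε₀]; exact min_le_left _ _
  obtain ⟨ε₁, c₂, hε₁, hc₂, L₁, hL₁, hfr⟩ := fresh_exp h hF h00 h01
  obtain ⟨δ, c₃, hδ, hc₃, L₂, hns⟩ := hns (ε₁ / 2) (by positivity)
  obtain ⟨a, K, -, -, hK, hpow⟩ := wd'_pow h hF
  obtain ⟨n₂, hwd⟩ := wd'_eq h
  obtain ⟨c', hc'⟩ : ∃ c' : ℝ, c' = min c₂ c₃ / 2 := ⟨_, rfl⟩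
  have hc'0 : 0 < c' := by rw [hc']; have := lt_min hc₂ hc₃; positivity
  have hc'2 : c' < c₂ := by
    rw [hc']
    have := min_le_left c₂ c₃
    have := lt_min hc₂ hc₃
    linarith
  have hc'3 : c' < c₃ := by
    rw [hc']
    have := min_le_right c₂ c₃
    have := lt_min hc₂ hc₃
    linarith
  -- the thresholds
  have hev : ∀ (e : ℝ), 0 < e → ∀ B : ℝ, ∀ᶠ L : ℝ in atTop, B ≤ L ^ e := fun e he B =>
    (tendsto_rpow_atTop he).eventually_ge_atTop B
  have hlog : ∀ᶠ L : ℝ in atTop, 4 * Real.log (L + 1) ≤ L ^ c' := by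
    have h1 : (fun x : ℝ => Real.log x) =o[atTop] fun x : ℝ => x ^ c' := isLittleO_log_rpow_atTop hc'0
    have h2 := h1.bound (show (0 : ℝ) < 1 / 16 by norm_num)
    filter_upwards [h2, eventually_ge_atTop (2 : ℝ), hev c' hc'0 16] with x hx hx2 hx3
    have hx0 : 0 ≤ Real.log x := Real.log_nonneg (by linarith)
    rw [Real.norm_eq_abs, Real.norm_eq_abs, abs_of_nonneg hx0, abs_of_nonneg (by positivity)] at hx
    have h3 : Real.log (x + 1) ≤ Real.log (x ^ 2) := by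
      apply Real.log_le_log (by linarith)
      nlinarith
    rw [Real.log_pow] at h3
    push_cast at h3
    linarith
  have hall := (((hev (ε₁ / 2) (by positivity) K).and (hev ε₀ h00 (n₂ + 1))).and ((eventually_ge_atTop (max L₁ 2)).and hlog)).and
    ((hev (c₂ - c') (by linarith) 2).and ((hev (c₃ - c') (by linarith) 2).and (hev c' hc'0 2)))
  obtain ⟨L₃, hL₃⟩ := eventually_atTop.1 hall
  refine ⟨δ, c', hδ, hc'0, max L₂ ⌈L₃⌉₊, fun L hL N hLN hNL y hy0 hy1 hyc v hv => ?_⟩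
  have hLr : L₃ ≤ (L : ℝ) := (Nat.le_ceil _).trans (by exact_mod_cast (le_max_right _ _).trans hL)
  obtain ⟨⟨⟨hK1, hn2⟩, hL12, hlg⟩, hq2, hq3, hq1⟩ := hL₃ (L : ℝ) hLr
  have hLL₁ : L₁ ≤ (L : ℝ) := (le_max_left _ _).trans hL12
  have hL2 : (2 : ℝ) ≤ L := (le_max_right _ _).trans hL12
  have hL0 : (0 : ℝ) < L := by linarith
  have hL1 : (1 : ℝ) ≤ L := by linarith
  -- the windows
  have hex : ∀ n : ℕ, ∃ n' : ℕ, (L : ℝ) ^ ε₀ ≤ n → (n' ≤ n ∧ n ≤ 2 * n' ∧
      ∀ ρ : ℕ, (ρ : ℝ) ≤ (L : ℝ) ^ (-ε₀) * wd μ n → ∀ (t k N : ℕ) (φ : ℤ → ℤ) (y y' : ℤ) (S : Finset (ℤ × ℤ)),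
      (S.card : ℝ) ≤ Real.exp ((L : ℝ) ^ c₂) → (∀ p ∈ S, 0 ≤ p.2 ∧ p.2 ≤ n' ∧ |(p.2 : ℝ) - n' / 2| ≤ (L : ℝ) ^ ε₁ * wd μ n) →
      ∫ η, ∑ S₁ ∈ (Finset.range N).powerset, Gp μ η N y S₁ *
        ∑ S₂ ∈ (Finset.range (t + n' + k)).powerset, Gp μ (rsh φ η) (t + n' + k) y' S₂ *
          (open Classical in if close φ ρ t n' S S₁ S₂ then 1 else 0) ∂(law μ) ≤ Real.exp (-(L : ℝ) ^ c₂)) := by
    intro n
    by_cases hn : (L : ℝ) ^ ε₀ ≤ n
    · obtain ⟨n', h1⟩ := hfr L hLL₁ n hn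
      exact ⟨n', fun _ => h1⟩
    · exact ⟨0, fun h' => absurd h' hn⟩
  choose nn hnn using hex
  obtain ⟨φ, hφ⟩ : ∃ φ : ℤ → ℤ, φ = fun z => sv v 0 z.toNat := ⟨_, rfl⟩
  have hφn : ∀ k : ℕ, φ (k : ℤ) = sv v 0 k := fun k => by
    rw [hφ]
    show sv v 0 ((k : ℤ)).toNat = sv v 0 k
    rw [Int.toNat_natCast]
  have hsh : ∀ η : Env, shr 0 v η = rsh φ η := fun η => by
    rw [hφ]
    rfl
  classical
  obtain ⟨Q, hQ⟩ : ∃ Q : ℕ → Finset (ℤ × ℤ), Q = fun n => (Icc (0 : ℤ) N ×ˢ Icc (0 : ℤ) (nn n)).filter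
    fun p => |(p.2 : ℝ) - (nn n : ℝ) / 2| ≤ (L : ℝ) ^ ε₁ * wd μ n := ⟨_, rfl⟩
  obtain ⟨ρ, hρ⟩ : ∃ ρ : ℕ → ℕ, ρ = fun n => ⌊(L : ℝ) ^ (-ε₀) * wd μ n⌋₊ := ⟨_, rfl⟩
  obtain ⟨ix, hix⟩ : ∃ ix : Finset (ℕ × ℕ), ix = (range (N + 1) ×ˢ range (N + 1)).filter
    fun p => (L : ℝ) ^ ε₀ ≤ p.2 ∧ p.1 + p.2 ≤ N := ⟨_, rfl⟩
  -- the inclusion
  have hinc : P2 μ N y v (fun _ S S' => ClosS μ L N ε v S S') ≤
      P2 μ N y v (fun _ S S' => (¬ NSpS μ L N (ε₁ / 2) S') ∨ ∃ p ∈ ix, close φ (ρ p.2) p.1 (nn p.2) (Q p.2) S S') := by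
    refine P2_mono fun η S hS S' hS' hSN hSN' hc => ?_
    by_cases hN : NSpS μ L N (ε₁ / 2) S'
    · right
      obtain ⟨i, n, hn, hin, hmeet, hsep⟩ := hc
      have hnε : (L : ℝ) ^ ε₀ ≤ n := (Real.rpow_le_rpow_of_exponent_le hL1 h02).trans hn
      obtain ⟨hnn1, hnn2, -⟩ := hnn n hnε
      have hn2' : n₂ + 1 ≤ n := by exact_mod_cast hn2.trans hnε
      have hwn := (hwd n (by omega)).1
      have hn1 : 1 ≤ nn n := by omega
      have hsep' : ∀ k, i ≤ k → k ≤ i + n → |pos S' k - φ (k : ℤ) - pos S k| ≤ ρ n := by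
        intro k h1 h2
        have h3 := hsep k h1 h2
        rw [hwn] at h3
        have h4 : (L : ℝ) ^ (-ε) * wd μ n ≤ (L : ℝ) ^ (-ε₀) * wd μ n := by
          refine mul_le_mul_of_nonneg_right (Real.rpow_le_rpow_of_exponent_le hL1 (by linarith)) ?_
          rw [← hwn]
          exact zero_le_one.trans (le_max_left _ _)
        have h5 : (|pos S' k - φ (k : ℤ) - pos S k| : ℤ) = |pos S k - px v S' k| := by
          rw [hφn, abs_sub_comm]
          rfl
        rw [h5]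
        have h6 : ((|pos S k - px v S' k|).toNat : ℝ) ≤ (L : ℝ) ^ (-ε₀) * wd μ n := by
          have h7 : (((|pos S k - px v S' k|).toNat : ℤ) : ℝ) = |((pos S k - px v S' k : ℤ) : ℝ)| := by
            rw [Int.toNat_of_nonneg (abs_nonneg _)]
            push_cast
            rfl
          have h8 : ((|pos S k - px v S' k|).toNat : ℝ) = |((pos S k - px v S' k : ℤ) : ℝ)| := by
            rw [← h7]
            push_cast
            rfl
          rw [h8]
          exact h3.trans h4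
        have h7 : (|pos S k - px v S' k|).toNat ≤ ρ n := by
          rw [hρ]
          exact Nat.le_floor h6
        have h8 := Int.toNat_of_nonneg (abs_nonneg (pos S k - px v S' k))
        omega
      refine ⟨(i, n), ?_, ?_, ?_, ?_⟩
      · rw [hix, mem_filter, mem_product, mem_range, mem_range]
        refine ⟨⟨by omega, by omega⟩, hnε, hin⟩
      · intro j hj
        exact hsep' (i + j) (by omega) (by simp only at hj; omega)
      · intro j hj h1
        have h2 := hmeet (i + j + 1) (by omega) (by simp only at hj; omega)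
        rw [hφn] at h1
        exact h2 h1.symm
      · rw [hQ]
        simp only [mem_filter, mem_product, mem_Icc]
        have h1 : pos S' i ≤ i := pos_le _ _
        have h2 : pos S' i ≤ pos S' (i + nn n) := by
          unfold pos
          exact_mod_cast card_le_card (inter_subset_inter_left (range_subset_range.2 (by omega)))
        have h3 : pos S' (i + nn n) ≤ pos S' i + nn n := by
          unfold pos
          have h4 : S' ∩ range (i + nn n) ⊆ (S' ∩ range i) ∪ Ico i (i + nn n) := by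
            intro x hx
            rw [mem_inter, mem_range] at hx
            rw [mem_union, mem_inter, mem_range, mem_Ico]
            by_cases hxi : x < i
            · exact Or.inl ⟨hx.1, hxi⟩
            · exact Or.inr ⟨by omega, hx.2⟩
          have h5 := (card_le_card h4).trans (card_union_le _ _)
          rw [Nat.card_Ico, Nat.add_sub_cancel_left] at h5
          exact_mod_cast h5
        refine ⟨⟨⟨pos_nonneg _ _, by omega⟩, by omega, by omega⟩, ?_⟩
        have h4 := hN i (nn n) hn1 (by omega)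
        have h5 := (hpow (nn n) n hn1 hnn1).1
        rw [hwn] at h5
        have h6 : (L : ℝ) ^ (ε₁ / 2) * wd' μ (nn n) ≤ (L : ℝ) ^ ε₁ * wd μ n := by
          have h7 : (L : ℝ) ^ ε₁ = (L : ℝ) ^ (ε₁ / 2) * (L : ℝ) ^ (ε₁ / 2) := by
            rw [← Real.rpow_add hL0]
            congr 1
            ring
          rw [h7, mul_assoc]
          refine mul_le_mul_of_nonneg_left (h5.trans (mul_le_mul_of_nonneg_right hK1 ?_)) (by positivity)
          rw [← hwn]
          exact zero_le_one.trans (le_max_left _ _)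
        have h7 : |2 * ((pos S' (i + nn n) - pos S' i : ℤ) : ℝ) - (nn n : ℝ)| =
            2 * |((pos S' (i + nn n) - pos S' i : ℤ) : ℝ) - (nn n : ℝ) / 2| := by
          rw [← abs_two, ← abs_mul, abs_two]
          congr 1
          ring
        rw [h7] at h4
        linarith
    · exact Or.inl hN
  refine hinc.trans ((P2_or _ _).trans ?_)
  have h1 : P2 μ N y v (fun _ _ S' => ¬ NSpS μ L N (ε₁ / 2) S') ≤ ENNReal.ofReal (Real.exp (-(L : ℝ) ^ c₃)) := by
    have h2 := P2_snd (μ := μ) hy0 hy1 v (fun _ S => ¬ NSpS μ L N (ε₁ / 2) S)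
    rw [h2]
    exact hns L ((le_max_left _ _).trans hL) N hLN hNL y hy0 hy1 hyc
  have hcardN : ((N : ℝ) + 1) * (N + 1) ≤ Real.exp ((L : ℝ) ^ c' / 2) := by
    have h2 : (N : ℝ) ≤ L := by exact_mod_cast hNL
    have h3 : ((N : ℝ) + 1) * (N + 1) ≤ (L + 1) ^ 2 := by
      have : (0 : ℝ) ≤ N := Nat.cast_nonneg N
      nlinarith
    refine h3.trans ?_
    have h4 : ((L : ℝ) + 1) ^ 2 = Real.exp (2 * Real.log (L + 1)) := by
      rw [two_mul, Real.exp_add, Real.exp_log (by linarith), sq]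
    rw [h4]
    apply Real.exp_le_exp.2
    linarith
  have h2 : ∀ p ∈ ix, P2 μ N y v (fun _ S S' => close φ (ρ p.2) p.1 (nn p.2) (Q p.2) S S') ≤
      ENNReal.ofReal (Real.exp (-(L : ℝ) ^ c₂)) := by
    intro p hp
    rw [hix, mem_filter, mem_product, mem_range, mem_range] at hp
    obtain ⟨⟨hp1, hp2⟩, hp3, hp4⟩ := hp
    obtain ⟨hnn1, hnn2, hnn3⟩ := hnn p.2 hp3
    refine (P2_path (μ := μ) _).trans (ENNReal.ofReal_le_ofReal ?_)
    have hN' : N = p.1 + nn p.2 + (N - p.1 - nn p.2) := by omega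
    have h3 := hnn3 (ρ p.2) (by
      rw [hρ]
      refine Nat.floor_le (mul_nonneg (by positivity) ?_)
      have hn2' : n₂ + 1 ≤ p.2 := by exact_mod_cast hn2.trans hp3
      rw [← (hwd p.2 (by omega)).1]
      exact zero_le_one.trans (le_max_left _ _)) p.1 (N - p.1 - nn p.2) N φ y y (Q p.2) (by
      have h4 : (Q p.2).card ≤ (N + 1) * (N + 1) := by
        rw [hQ]
        refine (card_filter_le _ _).trans ?_
        rw [card_product, Int.card_Icc, Int.card_Icc]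
        refine Nat.mul_le_mul (by omega) (by omega)
      have h5 : ((Q p.2).card : ℝ) ≤ ((N : ℝ) + 1) * (N + 1) := by exact_mod_cast h4
      refine h5.trans (hcardN.trans (Real.exp_le_exp.2 ?_))
      have h6 : (L : ℝ) ^ c' ≤ (L : ℝ) ^ c₂ := Real.rpow_le_rpow_of_exponent_le hL1 hc'2.le
      have h7 : 0 ≤ (L : ℝ) ^ c' := by positivity
      linarith) (fun q hq => by
      rw [hQ] at hq
      simp only [mem_filter, mem_product, mem_Icc] at hq
      exact ⟨hq.1.2.1, hq.1.2.2, hq.2⟩)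
    rw [← hN'] at h3
    refine le_trans (le_of_eq ?_) h3
    refine integral_congr_ae (Filter.Eventually.of_forall fun η => ?_)
    beta_reduce
    refine Finset.sum_congr rfl fun S _ => ?_
    rw [gp_eq_Gp]
    congr 1
    refine Finset.sum_congr rfl fun S' _ => ?_
    rw [gp_eq_Gp, hsh]
  have h3 : P2 μ N y v (fun _ S S' => ∃ p ∈ ix, close φ (ρ p.2) p.1 (nn p.2) (Q p.2) S S') ≤
      ENNReal.ofReal (((N : ℝ) + 1) * (N + 1) * Real.exp (-(L : ℝ) ^ c₂)) := by
    refine (P2_exists ix fun p _ S S' => close φ (ρ p.2) p.1 (nn p.2) (Q p.2) S S').trans ?_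
    refine (Finset.sum_le_sum h2).trans ?_
    rw [Finset.sum_const, nsmul_eq_mul]
    have h4 : (ix.card : ℝ≥0∞) = ENNReal.ofReal (ix.card : ℝ) := (ENNReal.ofReal_natCast _).symm
    rw [h4, ← ENNReal.ofReal_mul (by positivity)]
    refine ENNReal.ofReal_le_ofReal (mul_le_mul_of_nonneg_right ?_ (Real.exp_pos _).le)
    have h5 : ix.card ≤ (N + 1) * (N + 1) := by
      rw [hix]
      refine (card_filter_le _ _).trans ?_
      rw [card_product, card_range]
    exact_mod_cast h5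
  refine (add_le_add h1 h3).trans ?_
  rw [← ENNReal.ofReal_add (by positivity) (by positivity)]
  refine ENNReal.ofReal_le_ofReal ?_
  -- numbers
  have hx1 : (2 : ℝ) ≤ (L : ℝ) ^ c' := hq1
  have e2 : (L : ℝ) ^ c₂ = (L : ℝ) ^ (c₂ - c') * (L : ℝ) ^ c' := by
    rw [← Real.rpow_add hL0]
    congr 1
    ring
  have e3 : (L : ℝ) ^ c₃ = (L : ℝ) ^ (c₃ - c') * (L : ℝ) ^ c' := by
    rw [← Real.rpow_add hL0]
    congr 1
    ring
  have f2 : 2 * (L : ℝ) ^ c' ≤ (L : ℝ) ^ c₂ := by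
    rw [e2]
    exact mul_le_mul_of_nonneg_right hq2 (by linarith)
  have f3 : 2 * (L : ℝ) ^ c' ≤ (L : ℝ) ^ c₃ := by
    rw [e3]
    exact mul_le_mul_of_nonneg_right hq3 (by linarith)
  obtain ⟨X, hX⟩ : ∃ X : ℝ, X = (L : ℝ) ^ c' := ⟨_, rfl⟩
  rw [← hX] at f2 f3 hcardN hx1 ⊢
  have g1 : Real.exp (-(L : ℝ) ^ c₃) ≤ Real.exp (-X) * (1 / 2) := by
    have k1 : Real.exp (-(L : ℝ) ^ c₃) ≤ Real.exp (-X) * Real.exp (-X) := by
      rw [← Real.exp_add]
      apply Real.exp_le_exp.2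
      linarith
    have k2 : Real.exp (-X) ≤ 1 / 2 := by
      rw [Real.exp_neg, ← one_div]
      have := Real.add_one_le_exp X
      exact one_div_le_one_div_of_le (by norm_num) (by linarith)
    exact k1.trans (mul_le_mul_of_nonneg_left k2 (Real.exp_pos _).le)
  have g2 : ((N : ℝ) + 1) * (N + 1) * Real.exp (-(L : ℝ) ^ c₂) ≤ Real.exp (-X) * (1 / 2) := by
    have k1 : ((N : ℝ) + 1) * (N + 1) * Real.exp (-(L : ℝ) ^ c₂) ≤ Real.exp (X / 2) * Real.exp (-(2 * X)) :=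
      mul_le_mul hcardN (Real.exp_le_exp.2 (by linarith)) (Real.exp_pos _).le (Real.exp_pos _).le
    have k2 : Real.exp (X / 2) * Real.exp (-(2 * X)) = Real.exp (-X) * Real.exp (-(X / 2)) := by
      rw [← Real.exp_add, ← Real.exp_add]
      congr 1
      ring
    have k3 : Real.exp (-(X / 2)) ≤ 1 / 2 := by
      rw [Real.exp_neg, ← one_div]
      have := Real.add_one_le_exp (X / 2)
      exact one_div_le_one_div_of_le (by norm_num) (by linarith)
    rw [k2] at k1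
    exact k1.trans (mul_le_mul_of_nonneg_left k3 (Real.exp_pos _).le)
  linarith

end Pool.Agent.W_7d29a1_Z40
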